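import Pool.Agent.H2.SPL.QuadricRichLinesProof

/-!
# Rich lines: the conjectured bound fails in every dimension `d ≥ 4`

For a finite set `V` of `n` points of `ℂ^d` let `L_r(V)` be the set of complex lines meeting `V` in at
least `r` points and let `s_ℓ` be the maximal number of points of `V` on an `ℓ`-flat. We show that the
bound `|L_r(V)| ≤ C_d (n² r^{-d-1} + ∑_{ℓ=2}^{d-1} n s_ℓ r^{-ℓ-1} + n r^{-1})` fails for every `d ≥ 4`,
even by a factor `n^{1/12}` and even for points with integer coordinates.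

The points are `(x, y, z, xz - y², 0, …, 0)` with `0 ≤ x < B³`, `0 ≤ y < 2B⁴`, `0 ≤ z < 2B⁵`; they lie on
a quadric of the coordinate `4`-space that contains the lines with directions `(1, b, b², ⋯)`.
Here `r = B³`, `n = 4B¹²`, `|L_r(V)| ≥ B¹⁰`, `s_2 ≤ 10B⁵`, `s_3 ≤ 12B⁹`, and the bracket is at most
`48 d B⁹`.
-/

set_option autoImplicit false

namespace Pool.Agent.Results.MP_0eaff0_co.QuadricRichLines

open Finset

/-- **The bound fails, by a factor `n^{1/12}`, in every dimension `d ≥ 4`.** For every `d ≥ 4` there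
is `c > 0` such that there are arbitrarily large finite sets `V` of points with integer coordinates
and integers `r ≥ 2` with `|L_r(V)| > c n^{1/12} (n² r^{-d-1} + ∑_ℓ n s_ℓ r^{-ℓ-1} + n r^{-1})`.
In particular no constant `C_d` works. -/
theorem result : ∀ d : ℕ, 4 ≤ d → ∃ c : ℝ, 0 < c ∧ ∀ N : ℕ,
    ∃ (V : Finset (Fin d → ℂ)) (r : ℕ),
      (∀ v ∈ V, ∀ i, ∃ z : ℤ, v i = (z : ℂ)) ∧ N ≤ V.card ∧ 2 ≤ r ∧
      c * (V.card : ℝ) ^ ((1 : ℝ) / 12) * bracket V r < ((richLines V r).ncard : ℝ) :=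
  result_proof

end Pool.Agent.Results.MP_0eaff0_co.QuadricRichLines
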